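import Pool.Agent.Helper12.PG.Sec2
import Pool.Graph.R_pool_sql_team_seeded_b677cdb8.Results.MP_a1f59e_nt.PairsWithAlmostEveryGapH16

/-! Progressions of three primes and arbitrary sets of gaps: the conclusion. -/

set_option autoImplicit false
set_option maxHeartbeats 4000000

open Finset Filter Topology

namespace Pool.Agent.Helper12.PG

open Pool.Agent.Helper12.ST
open Pool.Agent.E8helper16.TP (apCount apRegion IsPair singAP)

/-- the first moment -/
theorem first (A : ℕ) : ∃ c : ℝ, 0 < c ∧ ∀ᶠ N : ℕ in atTop, ∀ S : Finset ℕ, S ⊆ Icc 1 N → (∀ h ∈ S, Even h) →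
    (N : ℝ) ≤ #S * Real.log N ^ A → c * #S * N ^ 2 / Real.log N ^ 6 ≤ ∑ h ∈ S, (apCount h N : ℝ) := by
  classical
  obtain ⟨-, c, hc, h⟩ := Pool.Agent.Results.MP_a1f59e_nt.PairsWithAlmostEveryGapH16.result
  obtain ⟨_B, N₀, h⟩ := h (A + 1) (1 / 2) (by norm_num)
  have hlogt : Tendsto (fun x : ℕ => Real.log (x : ℝ)) atTop atTop :=
    Real.tendsto_log_atTop.comp tendsto_natCast_atTop_atTop
  refine ⟨c / 16, by positivity, ?_⟩
  filter_upwards [eventually_ge_atTop N₀, hlogt.eventually_ge_atTop 2] with N hN hL S hS hev hSN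
  obtain ⟨E, -, hEc, h⟩ := h N hN
  set L := Real.log (N : ℝ) with hLd
  have hL0 : 0 < L := by linarith
  have hS0 : (0 : ℝ) ≤ #S := Nat.cast_nonneg _
  have hE2 : (#E : ℝ) ≤ #S / 2 := by
    refine hEc.trans ?_
    rw [div_le_div_iff₀ (by positivity) (by norm_num), pow_succ]
    have : 0 ≤ (#S : ℝ) * L ^ A := by positivity
    nlinarith
  have hcard : (#S : ℝ) / 2 ≤ #(S \ E) := by
    have h1 : #S ≤ #(S \ E) + #E := by
      have := card_le_card_sdiff_add_card (s := S) (t := E)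
      omega
    have h2 : (#S : ℝ) ≤ #(S \ E) + #E := by exact_mod_cast h1
    linarith
  have hone : ∀ h' ∈ S \ E, c * N ^ 2 / (8 * L ^ 6) ≤ (apCount h' N : ℝ) := by
    intro h' hh
    rw [Finset.mem_sdiff] at hh
    obtain ⟨-, -, -, h4⟩ := h h' (hS hh.1) hh.2
    obtain ⟨k1, k2, -⟩ := h4 (hev h' hh.1)
    refine le_trans ?_ k2
    calc c * N ^ 2 / (8 * L ^ 6) = (1 - 1 / 2) * (c * ((N : ℝ) ^ 2 / 4) / L ^ 6) := by field_simp; ring
      _ ≤ (1 - 1 / 2) * (singAP h' * ((N : ℝ) ^ 2 / 4) / L ^ 6) := by gcongr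
  calc c / 16 * #S * N ^ 2 / L ^ 6 = (#S / 2) * (c * N ^ 2 / (8 * L ^ 6)) := by field_simp; ring
    _ ≤ #(S \ E) * (c * N ^ 2 / (8 * L ^ 6)) := mul_le_mul_of_nonneg_right hcard (by positivity)
    _ = ∑ _h ∈ S \ E, c * N ^ 2 / (8 * L ^ 6) := by rw [sum_const, nsmul_eq_mul]
    _ ≤ ∑ h ∈ S \ E, (apCount h N : ℝ) := sum_le_sum hone
    _ ≤ ∑ h ∈ S, (apCount h N : ℝ) := sum_le_sum_of_subset_of_nonneg sdiff_subset (fun _ _ _ => Nat.cast_nonneg _)

open Classical in
/-- the progressions `x, x + y, x + 2 y ≤ N` of primes -/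
noncomputable def prog (N : ℕ) : Finset (ℕ × ℕ) :=
  (Icc 1 N ×ˢ Icc 1 N).filter (fun r => r.1 + 2 * r.2 ≤ N ∧ r.1.Prime ∧ (r.1 + r.2).Prime ∧ (r.1 + 2 * r.2).Prime)

open Classical in
/-- the elements of `S` which move the progression to a progression of primes -/
noncomputable def moves (S : Finset ℕ) (r : ℕ × ℕ) : Finset ℕ :=
  S.filter (fun h => (r.1 + h).Prime ∧ (r.1 + r.2 + h).Prime ∧ (r.1 + 2 * r.2 + h).Prime)

lemma sum_moves (S : Finset ℕ) (N : ℕ) : ∑ h ∈ S, (apCount h N : ℝ) = ∑ r ∈ prog N, (#(moves S r) : ℝ) := by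
  classical
  have h1 : ∀ h ∈ S, (apCount h N : ℝ) = ∑ r ∈ prog N, if (r.1 + h).Prime ∧ (r.1 + r.2 + h).Prime ∧ (r.1 + 2 * r.2 + h).Prime then (1 : ℝ) else 0 := by
    intro h _
    rw [← sum_filter, sum_const, nsmul_eq_mul, mul_one]
    congr 1
    unfold apCount prog apRegion
    rw [filter_filter, filter_filter]
    apply congrArg Finset.card
    apply filter_congr
    intro r _
    unfold IsPair
    tauto
  rw [sum_congr rfl h1, sum_comm]
  refine sum_congr rfl fun r _ => ?_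
  unfold moves
  rw [← sum_filter, sum_const, nsmul_eq_mul, mul_one]

/-- the second moment is a sum over the triples `(y, h, h')` -/
lemma sum_sq (S : Finset ℕ) (N : ℕ) : ∑ r ∈ prog N, (#(moves S r) : ℝ) ^ 2 ≤
    ∑ t ∈ Icc 1 N ×ˢ (S ×ˢ S), (NT N (ev 3 t) : ℝ) := by
  classical
  have h1 : ∀ r ∈ prog N, (#(moves S r) : ℝ) ^ 2 = ∑ u ∈ S ×ˢ S,
      if (u.1 ∈ moves S r ∧ u.2 ∈ moves S r) then (1 : ℝ) else 0 := by
    intro r _
    rw [← sum_filter, sum_const, nsmul_eq_mul, mul_one, sq]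
    rw [← Nat.cast_mul, ← card_product]
    congr 2
    ext u
    rw [mem_filter, mem_product, mem_product]
    constructor
    · rintro ⟨a, b⟩
      exact ⟨⟨(mem_filter.1 a).1, (mem_filter.1 b).1⟩, a, b⟩
    · rintro ⟨-, a, b⟩
      exact ⟨a, b⟩
  rw [sum_congr rfl h1]
  have h2 : ∀ t ∈ Icc 1 N ×ˢ (S ×ˢ S), (NT N (ev 3 t) : ℝ) =
      ∑ x ∈ Icc 1 N, if (∀ j, (x + ev 3 t j).Prime) then (1 : ℝ) else 0 := by
    intro t _
    unfold NT
    rw [← sum_filter, sum_const, nsmul_eq_mul, mul_one]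
    congr!
  rw [sum_congr rfl h2]
  calc ∑ r ∈ prog N, ∑ u ∈ S ×ˢ S, (if (u.1 ∈ moves S r ∧ u.2 ∈ moves S r) then (1 : ℝ) else 0)
      ≤ ∑ r ∈ prog N, ∑ u ∈ S ×ˢ S, (if (∀ j, (r.1 + ev 3 (r.2, u) j).Prime) then (1 : ℝ) else 0) := by
        refine sum_le_sum fun r hr => sum_le_sum fun u hu => ?_
        by_cases hc : u.1 ∈ moves S r ∧ u.2 ∈ moves S r
        · rw [if_pos hc, if_pos]
          obtain ⟨-, -, p0, p1, p2⟩ := mem_filter.1 hr
          obtain ⟨-, a0, a1, a2⟩ := mem_filter.1 hc.1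
          obtain ⟨-, b0, b1, b2⟩ := mem_filter.1 hc.2
          rintro ⟨j, k⟩
          fin_cases j <;> fin_cases k
          all_goals simp [ev, sh]
          all_goals first
            | exact p0
            | exact a0
            | exact b0
            | exact p1
            | exact p2
            | (rw [← add_assoc]; exact a1)
            | (rw [← add_assoc]; exact b1)
            | (rw [← add_assoc]; exact a2)
            | (rw [← add_assoc]; exact b2)
        · rw [if_neg hc]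
          split_ifs <;> norm_num
    _ ≤ ∑ r ∈ Icc 1 N ×ˢ Icc 1 N, ∑ u ∈ S ×ˢ S, (if (∀ j, (r.1 + ev 3 (r.2, u) j).Prime) then (1 : ℝ) else 0) := by
        apply sum_le_sum_of_subset_of_nonneg (filter_subset _ _)
        intro r _ _
        apply sum_nonneg
        intro u _
        split_ifs <;> norm_num
    _ = _ := by
        rw [sum_product_right, sum_product]
        refine sum_congr rfl fun y _ => ?_
        rw [sum_comm]

/-- the number of progressions of primes is at most a first moment -/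
lemma prog_le (N : ℕ) : (#(prog N) : ℝ) ≤ ∑ y ∈ Icc 1 N, (NT N (fun j : Fin 3 => (j : ℕ) * y) : ℝ) := by
  classical
  have h2 : ∀ y ∈ Icc 1 N, (NT N (fun j : Fin 3 => (j : ℕ) * y) : ℝ) =
      ∑ x ∈ Icc 1 N, if (∀ j : Fin 3, (x + (j : ℕ) * y).Prime) then (1 : ℝ) else 0 := by
    intro y _
    unfold NT
    rw [← sum_filter, sum_const, nsmul_eq_mul, mul_one]
    congr!
  rw [sum_congr rfl h2, ← sum_product_right (f := fun r : ℕ × ℕ => if (∀ j : Fin 3, (r.1 + (j : ℕ) * r.2).Prime) then (1 : ℝ) else 0),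
    ← sum_filter, sum_const, nsmul_eq_mul, mul_one]
  norm_cast
  apply card_le_card
  intro r hr
  obtain ⟨h0, -, p0, p1, p2⟩ := mem_filter.1 hr
  refine mem_filter.2 ⟨h0, ?_⟩
  intro j
  fin_cases j
  · simpa using p0
  · simpa using p1
  · simpa using p2

/-- **One progression of primes, many gaps.** -/
theorem main (A : ℕ) : ∃ c : ℝ, 0 < c ∧ ∃ D : ℕ, ∀ᶠ N : ℕ in atTop, ∀ S : Finset ℕ, S ⊆ Icc 1 N → (∀ h ∈ S, Even h) →
    (N : ℝ) ≤ #S * Real.log N ^ A →
    c * N ^ 2 / (Real.log N ^ 3 * Real.log (Real.log (Real.log N)) ^ D) ≤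
      #((prog N).filter (fun r => c * (#S / Real.log N ^ 3) ≤ #(moves S r))) := by
  classical
  obtain ⟨c1, hc1, f1⟩ := first A
  obtain ⟨C0, hC0, f2⟩ := firstUp 3 (by norm_num)
  obtain ⟨C, hC, M, f3⟩ := second 3 A (by norm_num)
  have hlogt : Tendsto (fun x : ℕ => Real.log (x : ℝ)) atTop atTop :=
    Real.tendsto_log_atTop.comp tendsto_natCast_atTop_atTop
  have hlll : Tendsto (fun x : ℕ => Real.log (Real.log (Real.log (x : ℝ)))) atTop atTop :=
    Real.tendsto_log_atTop.comp (Real.tendsto_log_atTop.comp hlogt)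
  set c : ℝ := min (c1 / (2 * C0)) (c1 ^ 2 / (4 * C)) with hc
  have hcpos : 0 < c := lt_min (by positivity) (by positivity)
  refine ⟨c, hcpos, M, ?_⟩
  filter_upwards [f1, f2, f3, hlogt.eventually_ge_atTop 1, hlll.eventually_ge_atTop 1, eventually_ge_atTop 1]
    with N f1 f2 f3 hL1 hW1 hN1 S hS hev hSN
  have f1 := f1 S hS hev hSN
  have f3 := f3 S hS hSN
  set L := Real.log (N : ℝ) with hL
  set W := Real.log (Real.log L) with hW
  have hL0 : 0 < L := by linarith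
  have hN0 : (0 : ℝ) < N := by exact_mod_cast hN1
  have hSpos : (0 : ℝ) < #S := by
    by_contra hcon
    have : (#S : ℝ) = 0 := le_antisymm (not_lt.1 hcon) (Nat.cast_nonneg _)
    rw [this, zero_mul] at hSN
    linarith
  rw [sum_moves] at f1
  have f3' := (sum_sq S N).trans f3
  have f2' := (prog_le N).trans f2
  set G := (prog N).filter (fun r => c * (#S / L ^ 3) ≤ #(moves S r)) with hG
  have hsmall : ∑ r ∈ (prog N).filter (fun r => ¬ c * (#S / L ^ 3) ≤ #(moves S r)), (#(moves S r) : ℝ) ≤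
      c1 * #S * N ^ 2 / L ^ 6 / 2 := by
    calc ∑ r ∈ (prog N).filter (fun r => ¬ c * (#S / L ^ 3) ≤ #(moves S r)), (#(moves S r) : ℝ)
        ≤ ∑ _r ∈ (prog N).filter (fun r => ¬ c * (#S / L ^ 3) ≤ #(moves S r)), c * (#S / L ^ 3) :=
          sum_le_sum fun r hr => (not_le.1 (mem_filter.1 hr).2).le
      _ = #((prog N).filter (fun r => ¬ c * (#S / L ^ 3) ≤ #(moves S r))) * (c * (#S / L ^ 3)) := by
          rw [sum_const, nsmul_eq_mul]
      _ ≤ #(prog N) * (c * (#S / L ^ 3)) := by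
          apply mul_le_mul_of_nonneg_right _ (by positivity)
          exact_mod_cast card_filter_le _ _
      _ ≤ (C0 * N ^ 2 / L ^ 3) * (c1 / (2 * C0) * (#S / L ^ 3)) := by
          apply mul_le_mul f2' _ (by positivity) (by positivity)
          exact mul_le_mul_of_nonneg_right (min_le_left _ _) (by positivity)
      _ = _ := by field_simp
  have hbigG : c1 * #S * N ^ 2 / L ^ 6 / 2 ≤ ∑ r ∈ G, (#(moves S r) : ℝ) := by
    have := sum_filter_add_sum_filter_not (prog N) (fun r => c * (#S / L ^ 3) ≤ (#(moves S r) : ℝ))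
      (fun r => (#(moves S r) : ℝ))
    rw [← hG] at this
    linarith
  have hCS : (∑ r ∈ G, (#(moves S r) : ℝ)) ^ 2 ≤ #G * (C * N ^ 2 * #S ^ 2 * W ^ M / L ^ (3 * 3)) := by
    calc (∑ r ∈ G, (#(moves S r) : ℝ)) ^ 2 ≤ #G * ∑ r ∈ G, (#(moves S r) : ℝ) ^ 2 := sq_sum_le_card_mul_sum_sq
      _ ≤ #G * ∑ r ∈ prog N, (#(moves S r) : ℝ) ^ 2 := by
          apply mul_le_mul_of_nonneg_left _ (Nat.cast_nonneg _)
          exact sum_le_sum_of_subset_of_nonneg (filter_subset _ _) (fun _ _ _ => by positivity)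
      _ ≤ _ := mul_le_mul_of_nonneg_left f3' (Nat.cast_nonneg _)
  have hsq : (c1 * #S * N ^ 2 / L ^ 6 / 2) ^ 2 ≤ #G * (C * N ^ 2 * #S ^ 2 * W ^ M / L ^ (3 * 3)) :=
    (pow_le_pow_left₀ (by positivity) hbigG 2).trans hCS
  have hWM : 0 < W ^ M := by positivity
  have hK : 0 < C * N ^ 2 * #S ^ 2 * W ^ M / L ^ (3 * 3) := by positivity
  have hcle : c ≤ c1 ^ 2 / (4 * C) := min_le_right _ _
  have hfin : c1 ^ 2 / (4 * C) * N ^ 2 / (L ^ 3 * W ^ M) ≤ #G := by
    have e : c1 ^ 2 / (4 * C) * N ^ 2 / (L ^ 3 * W ^ M) * (C * N ^ 2 * #S ^ 2 * W ^ M / L ^ (3 * 3)) =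
        (c1 * #S * N ^ 2 / L ^ 6 / 2) ^ 2 := by
      field_simp
      ring
    rw [← e] at hsq
    exact le_of_mul_le_mul_right hsq hK
  refine le_trans ?_ hfin
  gcongr

end Pool.Agent.Helper12.PG
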