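import Pool.Agent.Helper12.ST.Main

/-! Second moment for progressions of primes and arbitrary sets of gaps. -/

set_option autoImplicit false
set_option maxHeartbeats 4000000

open Finset Filter Topology

namespace Pool.Agent.Helper12.PG

open Pool.Agent.H646 (rat)
open Pool.Agent.Helper12.CS (rat_nonneg' rat_le_gg gg_nonneg)
open Pool.Agent.Helper12.ST

/-- the shifts -/
def sh (t : ℕ × ℕ × ℕ) : Fin 3 → ℕ := ![0, t.2.1, t.2.2]

/-- the tuple of a difference and two gaps -/
def ev (l : ℕ) (t : ℕ × ℕ × ℕ) (q : Fin l × Fin 3) : ℕ := (q.1 : ℕ) * t.1 + sh t q.2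

lemma dist_or (x y v : ℕ) (h : Nat.dist x y = v) : x = y + v ∨ y = x + v := by
  unfold Nat.dist at h
  omega

lemma lin_sol (j i c d v : ℕ) (hji : j ≠ i) : ∃ a b : ℕ, ∀ y, Nat.dist (j * y + c) (i * y + d) = v → y = a ∨ y = b := by
  have key : ∀ v' w' : ℕ, ∃ a : ℕ, ∀ y, j * y + c + w' = i * y + d + v' → y = a := by
    intro v' w'
    by_cases h : ∃ y, j * y + c + w' = i * y + d + v'
    · obtain ⟨a, ha⟩ := h
      refine ⟨a, fun y hy => ?_⟩
      have e : ((j : ℤ) - i) * ((y : ℤ) - a) = 0 := by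
        have ha' : (j : ℤ) * a + c + w' = i * a + d + v' := by exact_mod_cast ha
        have hy' : (j : ℤ) * y + c + w' = i * y + d + v' := by exact_mod_cast hy
        linear_combination hy' - ha'
      rcases mul_eq_zero.1 e with h | h
      · exact absurd (by omega) hji
      · omega
    · exact ⟨0, fun y hy => absurd ⟨y, hy⟩ h⟩
  obtain ⟨a, ha⟩ := key v 0
  obtain ⟨b, hb⟩ := key 0 v
  refine ⟨a, b, fun y hy => ?_⟩
  rcases dist_or _ _ _ hy with h | h
  · exact Or.inl (ha y (by omega))
  · exact Or.inr (hb y (by omega))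

lemma two_fib (T : Finset (ℕ × ℕ × ℕ)) (f : ℕ × ℕ × ℕ → ℕ × ℕ) (g : ℕ × ℕ × ℕ → ℕ) (I : Finset (ℕ × ℕ))
    (hf : ∀ t ∈ T, f t ∈ I) (hinj : ∀ t t', f t = f t' → g t = g t' → t = t')
    (hg : ∀ u, ∃ a b : ℕ, ∀ t ∈ T, f t = u → g t = a ∨ g t = b) : #T ≤ 2 * #I := by
  classical
  have h1 : #T ≤ 2 * #(T.image f) := by
    apply Finset.card_le_mul_card_image
    intro u _
    obtain ⟨a, b, hab⟩ := hg u
    calc #{t ∈ T | f t = u} ≤ #({a, b} : Finset ℕ) := by
          apply Finset.card_le_card_of_injOn g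
          · intro t ht
            have ht' := mem_filter.1 (Finset.mem_coe.1 ht)
            simp only [Finset.coe_insert, Finset.coe_singleton, Set.mem_insert_iff, Set.mem_singleton_iff]
            exact hab t ht'.1 ht'.2
          · intro t ht t' ht' h
            have ht1 := mem_filter.1 (Finset.mem_coe.1 ht)
            have ht1' := mem_filter.1 (Finset.mem_coe.1 ht')
            exact hinj t t' (ht1.2.trans ht1'.2.symm) h
      _ ≤ 2 := card_le_two
  refine h1.trans (Nat.mul_le_mul_left _ (card_le_card ?_))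
  intro u hu
  obtain ⟨t, ht, rfl⟩ := mem_image.1 hu
  exact hf t ht

lemma fib (l N : ℕ) (S : Finset ℕ) (hS : S ⊆ Icc 1 N) (q r : Fin l × Fin 3) (hqr : q ≠ r) (v : ℕ) :
    #{t ∈ Icc 1 N ×ˢ (S ×ˢ S) | Nat.dist (ev l t q) (ev l t r) = v} ≤ 2 * (N * #S) := by
  classical
  have hSN : #S ≤ N := by simpa using card_le_card hS
  have hmem : ∀ t : ℕ × ℕ × ℕ, t ∈ Icc 1 N ×ˢ (S ×ˢ S) → t.1 ∈ Icc 1 N ∧ t.2.1 ∈ S ∧ t.2.2 ∈ S := by
    intro t ht
    rw [mem_product, mem_product] at ht
    exact ht
  have hI : #(Icc 1 N ×ˢ S) = N * #S := by rw [card_product, Nat.card_Icc, Nat.add_sub_cancel]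
  by_cases hj : q.1 = r.1
  · have hb : q.2 ≠ r.2 := fun h => hqr (Prod.ext hj h)
    have h1 : ∀ t, Nat.dist (ev l t q) (ev l t r) = Nat.dist (sh t q.2) (sh t r.2) := by
      intro t
      unfold ev
      rw [hj]
      exact Nat.dist_add_add_left _ _ _
    simp only [h1]
    -- reduction to an ordered pair
    have key : ∀ a b : Fin 3, a < b → #{t ∈ Icc 1 N ×ˢ (S ×ˢ S) | Nat.dist (sh t a) (sh t b) = v} ≤ 2 * (N * #S) := by
      intro a b hab
      rw [← hI]
      have hcase : (a = 0 ∧ b = 1) ∨ (a = 0 ∧ b = 2) ∨ (a = 1 ∧ b = 2) := by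
        revert hab
        fin_cases a <;> fin_cases b <;> decide
      rcases hcase with ⟨rfl, rfl⟩ | ⟨rfl, rfl⟩ | ⟨rfl, rfl⟩
      · apply two_fib _ (fun t => (t.1, t.2.2)) (fun t => t.2.1)
        · intro t ht
          have := hmem t (mem_filter.1 ht).1
          exact mem_product.2 ⟨this.1, this.2.2⟩
        · rintro ⟨x, y, z⟩ ⟨x', y', z'⟩ h h'
          simp only [Prod.mk.injEq] at h h' ⊢
          exact ⟨h.1, h', h.2⟩
        · intro u
          refine ⟨v, v, fun t ht _ => ?_⟩
          have h2 := (mem_filter.1 ht).2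
          have h3 := dist_or _ _ _ h2
          simp only [sh, Matrix.cons_val_zero, Matrix.cons_val_one] at h3
          left
          show t.2.1 = v
          omega
      · apply two_fib _ (fun t => (t.1, t.2.1)) (fun t => t.2.2)
        · intro t ht
          have := hmem t (mem_filter.1 ht).1
          exact mem_product.2 ⟨this.1, this.2.1⟩
        · rintro ⟨x, y, z⟩ ⟨x', y', z'⟩ h h'
          simp only [Prod.mk.injEq] at h h' ⊢
          exact ⟨h.1, h.2, h'⟩
        · intro u
          refine ⟨v, v, fun t ht _ => ?_⟩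
          have h2 := (mem_filter.1 ht).2
          have h3 : (0 : ℕ) = t.2.2 + v ∨ t.2.2 = 0 + v := dist_or _ _ _ h2
          left
          show t.2.2 = v
          omega
      · apply two_fib _ (fun t => (t.1, t.2.1)) (fun t => t.2.2)
        · intro t ht
          have := hmem t (mem_filter.1 ht).1
          exact mem_product.2 ⟨this.1, this.2.1⟩
        · rintro ⟨x, y, z⟩ ⟨x', y', z'⟩ h h'
          simp only [Prod.mk.injEq] at h h' ⊢
          exact ⟨h.1, h.2, h'⟩
        · intro u
          refine ⟨u.2 - v, u.2 + v, fun t ht htu => ?_⟩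
          have h2 := (mem_filter.1 ht).2
          have h3 : t.2.1 = t.2.2 + v ∨ t.2.2 = t.2.1 + v := dist_or _ _ _ h2
          have h4 : t.2.1 = u.2 := by rw [← htu]
          show t.2.2 = u.2 - v ∨ t.2.2 = u.2 + v
          omega
    rcases lt_or_gt_of_ne hb with h | h
    · exact key _ _ h
    · simp only [Nat.dist_comm (sh _ q.2)]
      exact key _ _ h
  · have hji : (q.1 : ℕ) ≠ r.1 := fun h => hj (Fin.ext h)
    calc #{t ∈ Icc 1 N ×ˢ (S ×ˢ S) | Nat.dist (ev l t q) (ev l t r) = v} ≤ 2 * #(S ×ˢ S) := by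
          apply two_fib _ (fun t => t.2) (fun t => t.1)
          · intro t ht
            have := hmem t (mem_filter.1 ht).1
            exact mem_product.2 this.2
          · rintro ⟨x, y⟩ ⟨x', y'⟩ h h'
            simp only [Prod.mk.injEq] at h h' ⊢
            exact ⟨h', h⟩
          · intro u
            obtain ⟨a, b, hab⟩ := lin_sol q.1 r.1 (sh (0, u) q.2) (sh (0, u) r.2) v hji
            refine ⟨a, b, fun t ht htu => ?_⟩
            apply hab
            have h2 := (mem_filter.1 ht).2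
            have h3 : sh t = sh (0, u) := by
              unfold sh
              rw [← htu]
            unfold ev at h2
            rw [h3] at h2
            exact h2
      _ = 2 * (#S * #S) := by rw [card_product]
      _ ≤ 2 * (N * #S) := Nat.mul_le_mul_left _ (Nat.mul_le_mul_right _ hSN)

lemma evl (l : ℕ) : ∀ᶠ N : ℕ in atTop, 4 * ((l : ℝ) + 1) ≤ Real.log N ∧
    Real.log N ≤ Real.log (((l + 1) * N : ℕ) : ℝ) ∧
    0 ≤ Real.log (Real.log (Real.log (((l + 1) * N : ℕ) : ℝ))) ∧
    Real.log (Real.log (Real.log (((l + 1) * N : ℕ) : ℝ))) ≤ 2 * Real.log (Real.log (Real.log N)) := by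
  have hlogt : Tendsto (fun x : ℕ => Real.log (x : ℝ)) atTop atTop :=
    Real.tendsto_log_atTop.comp tendsto_natCast_atTop_atTop
  have hll : Tendsto (fun x : ℕ => Real.log (Real.log (x : ℝ))) atTop atTop :=
    Real.tendsto_log_atTop.comp hlogt
  filter_upwards [hlogt.eventually_ge_atTop (4 * ((l : ℝ) + 1)), hll.eventually_ge_atTop 2, eventually_ge_atTop (l + 2)]
    with N g1 g2 g3
  have hN0 : (0 : ℝ) < N := by
    have : 0 < N := by omega
    exact_mod_cast this
  have hl0 : (0 : ℝ) ≤ l := Nat.cast_nonneg l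
  have hL4 : 4 ≤ Real.log N := by linarith
  have e1 : Real.log (((l + 1) * N : ℕ) : ℝ) = Real.log ((l : ℝ) + 1) + Real.log N := by
    push_cast
    rw [Real.log_mul (by positivity) hN0.ne']
  have e2 : 0 ≤ Real.log ((l : ℝ) + 1) := Real.log_nonneg (by linarith)
  have e3 : Real.log ((l : ℝ) + 1) ≤ Real.log N := by
    apply Real.log_le_log (by positivity)
    exact_mod_cast (show l + 1 ≤ N by omega)
  have h1 : Real.log N ≤ Real.log (((l + 1) * N : ℕ) : ℝ) := by rw [e1]; linarith
  have h2 : Real.log (((l + 1) * N : ℕ) : ℝ) ≤ Real.log N ^ 2 := by rw [e1]; nlinarith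
  have h3 : Real.log (Real.log N) ≤ Real.log (Real.log (((l + 1) * N : ℕ) : ℝ)) :=
    Real.log_le_log (by linarith) h1
  have h4 : Real.log (Real.log (((l + 1) * N : ℕ) : ℝ)) ≤ Real.log (Real.log N) ^ 2 := by
    have h5 : Real.log (Real.log (((l + 1) * N : ℕ) : ℝ)) ≤ Real.log (Real.log N ^ 2) :=
      Real.log_le_log (by linarith) h2
    rw [Real.log_pow] at h5
    push_cast at h5
    push_cast
    nlinarith
  refine ⟨g1, h1, Real.log_nonneg (by linarith), ?_⟩
  have h6 : Real.log (Real.log (Real.log (((l + 1) * N : ℕ) : ℝ))) ≤ Real.log (Real.log (Real.log N) ^ 2) :=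
    Real.log_le_log (by linarith) h4
  rw [Real.log_pow] at h6
  push_cast at h6
  push_cast
  exact h6

end Pool.Agent.Helper12.PG
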