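import Pool.Agent.Helper12.PG.Sec

/-! Second moment for progressions of primes and arbitrary sets of gaps. -/

set_option autoImplicit false
set_option maxHeartbeats 4000000

open Finset Filter Topology

namespace Pool.Agent.Helper12.PG

open Pool.Agent.H646 (rat)
open Pool.Agent.H197R2.PG
open Pool.Agent.Helper12.CS (rat_nonneg' rat_le_gg gg_nonneg)
open Pool.Agent.Helper12.ST

lemma NT_le_N {J : Type} (N : ℕ) (e : J → ℕ) : NT N e ≤ N := by
  classical
  unfold NT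
  refine (card_filter_le _ _).trans ?_
  simp

/-- the second moment -/
theorem second (l A : ℕ) (hl : 1 ≤ l) : ∃ C : ℝ, 0 < C ∧ ∃ M : ℕ, ∀ᶠ N : ℕ in atTop, ∀ S : Finset ℕ, S ⊆ Icc 1 N →
    (N : ℝ) ≤ #S * Real.log N ^ A →
    ∑ t ∈ Icc 1 N ×ˢ (S ×ˢ S), (NT N (ev l t) : ℝ) ≤
      C * N ^ 2 * #S ^ 2 * Real.log (Real.log (Real.log N)) ^ M / Real.log N ^ (3 * l) := by
  classical
  obtain ⟨C1, hC1, M1, hM1, h1⟩ := tbJ (Fin l × Fin 3) (by simp; omega)
  obtain ⟨D, hD, m⟩ := momF' (A + 1) M1 hM1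
  refine ⟨C1 * ((l * 3) ^ 2 * (D * 2 ^ M1)) + 1, by positivity, M1, ?_⟩
  have hX : Tendsto (fun N : ℕ => (l + 1) * N) atTop atTop :=
    tendsto_atTop_mono (fun N => Nat.le_mul_of_pos_left N (by omega)) tendsto_id
  have m' := hX.eventually m
  filter_upwards [h1, m', ev2 (3 * l) A, evl l] with N h1 m' ⟨hW1, hL4, hbig⟩ ⟨hl1, hl2, hl3, hl4⟩
  intro S hS hSN
  have hcJ : Fintype.card (Fin l × Fin 3) = l * 3 := by simp
  rw [hcJ] at h1
  rw [show 3 * l = l * 3 by ring]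
  rw [show 3 * l = l * 3 by ring] at hbig
  push_cast at hbig
  set L := Real.log (N : ℝ) with hL
  set W := Real.log (Real.log L) with hW
  set T : Finset (ℕ × ℕ × ℕ) := Icc 1 N ×ˢ (S ×ˢ S) with hT
  set T1 := T.filter (fun t => Function.Injective (ev l t)) with hT1
  set T2 := T.filter (fun t => ¬ Function.Injective (ev l t)) with hT2
  have hl0 : (1 : ℝ) ≤ l := by exact_mod_cast hl
  have hL0 : 0 < L := by linarith
  have hLA : 0 < L ^ A := by positivity
  have hLk : 1 ≤ L ^ (l * 3) := one_le_pow₀ (by linarith)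
  have hS0 : (0 : ℝ) ≤ #S := Nat.cast_nonneg _
  have hN0 : (0 : ℝ) < N := by
    have : 0 < 2 * (((l : ℝ) * 3) ^ 2 + 1) * L ^ (A + l * 3) := by positivity
    linarith
  have hSbig : 2 * (((l : ℝ) * 3) ^ 2 + 1) * L ^ (l * 3) ≤ #S := by
    have e1 : (2 * (((l : ℝ) * 3) ^ 2 + 1) * L ^ (l * 3)) * L ^ A ≤ #S * L ^ A := by
      calc (2 * (((l : ℝ) * 3) ^ 2 + 1) * L ^ (l * 3)) * L ^ A = 2 * (((l : ℝ) * 3) ^ 2 + 1) * L ^ (A + l * 3) := by
            rw [pow_add]; ring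
        _ ≤ (N : ℝ) := hbig
        _ ≤ _ := hSN
    exact le_of_mul_le_mul_right e1 hLA
  have hcT : (#T : ℝ) = N * #S ^ 2 := by
    rw [hT, card_product, card_product, Nat.card_Icc, Nat.add_sub_cancel]
    push_cast
    ring
  have hsplit : #T1 + #T2 = #T := by
    rw [hT1, hT2]
    exact card_filter_add_card_filter_not _
  set Q : Finset ((Fin l × Fin 3) × (Fin l × Fin 3)) := univ.filter (fun q => q.1 ≠ q.2) with hQ
  have hQc : (#Q : ℝ) ≤ (l * 3) ^ 2 := by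
    have : #Q ≤ (l * 3) * (l * 3) := by
      refine (card_filter_le _ _).trans (le_of_eq ?_)
      rw [card_univ, Fintype.card_prod, hcJ]
    have h2 : (#Q : ℝ) ≤ ((l * 3) * (l * 3) : ℕ) := by exact_mod_cast this
    push_cast at h2
    nlinarith
  have hc2 : (#T2 : ℝ) ≤ (l * 3) ^ 2 * (2 * (N * #S)) := by
    have e1 : #T2 ≤ #Q * (2 * (N * #S)) := by
      calc #T2 ≤ #(Q.biUnion (fun q => T.filter (fun t => Nat.dist (ev l t q.1) (ev l t q.2) = 0))) := by
            apply card_le_card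
            intro t ht
            rw [hT2, mem_filter] at ht
            obtain ⟨ht1, ht2⟩ := ht
            unfold Function.Injective at ht2
            push Not at ht2
            obtain ⟨q, r, hqr, hne⟩ := ht2
            rw [mem_biUnion]
            refine ⟨(q, r), by rw [hQ, mem_filter]; exact ⟨mem_univ _, hne⟩, ?_⟩
            rw [mem_filter]
            refine ⟨ht1, ?_⟩
            simp only
            rw [hqr]
            exact Nat.dist_self _
        _ ≤ ∑ q ∈ Q, #(T.filter (fun t => Nat.dist (ev l t q.1) (ev l t q.2) = 0)) := card_biUnion_le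
        _ ≤ ∑ q ∈ Q, 2 * (N * #S) := sum_le_sum fun q hq => fib l N S hS q.1 q.2 (mem_filter.1 hq).2 0
        _ = _ := by rw [sum_const, smul_eq_mul]
    have e2 : (#T2 : ℝ) ≤ #Q * (2 * (N * #S)) := by exact_mod_cast e1
    exact e2.trans (mul_le_mul_of_nonneg_right hQc (by positivity))
  have hl9 : ((l : ℝ) * 3) ^ 2 * 2 * L ^ (l * 3) ≤ #S := by
    refine le_trans ?_ hSbig
    have : 0 ≤ L ^ (l * 3) := by positivity
    nlinarith
  have hc1 : (N : ℝ) * #S ^ 2 / 2 ≤ #T1 := by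
    have e1 : (#T1 : ℝ) + #T2 = #T := by exact_mod_cast hsplit
    have e2 : (#T2 : ℝ) ≤ N * #S ^ 2 / 2 := by
      refine hc2.trans ?_
      have e3 : 4 * ((l : ℝ) * 3) ^ 2 ≤ #S := by
        refine le_trans ?_ hl9
        have e4 : L ≤ L ^ (l * 3) := by
          calc L = L ^ 1 := (pow_one _).symm
            _ ≤ L ^ (l * 3) := pow_le_pow_right₀ (by linarith) (by omega)
        have e5 : 0 ≤ ((l : ℝ) * 3) ^ 2 := by positivity
        nlinarith
      have e6 : 0 ≤ (N : ℝ) * #S := by positivity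
      nlinarith
    linarith
  -- the two sums
  have hs : ∑ t ∈ T, (NT N (ev l t) : ℝ) = ∑ t ∈ T1, (NT N (ev l t) : ℝ) + ∑ t ∈ T2, (NT N (ev l t) : ℝ) := by
    rw [hT1, hT2]
    exact (sum_filter_add_sum_filter_not T _ _).symm
  have hWM : 1 ≤ W ^ M1 := one_le_pow₀ hW1
  have hb2 : ∑ t ∈ T2, (NT N (ev l t) : ℝ) ≤ 1 * N ^ 2 * #S ^ 2 * W ^ M1 / L ^ (l * 3) := by
    calc ∑ t ∈ T2, (NT N (ev l t) : ℝ) ≤ ∑ t ∈ T2, (N : ℝ) := sum_le_sum fun t _ => by exact_mod_cast NT_le_N N _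
      _ = #T2 * N := by rw [sum_const, nsmul_eq_mul]
      _ ≤ ((l * 3) ^ 2 * (2 * (N * #S))) * N := mul_le_mul_of_nonneg_right hc2 hN0.le
      _ ≤ 1 * N ^ 2 * #S ^ 2 * W ^ M1 / L ^ (l * 3) := by
        rw [le_div_iff₀ (by positivity)]
        calc ((l : ℝ) * 3) ^ 2 * (2 * (N * #S)) * N * L ^ (l * 3) = (((l : ℝ) * 3) ^ 2 * 2 * L ^ (l * 3)) * (N ^ 2 * #S) := by ring
          _ ≤ (#S : ℝ) * ((N : ℝ) ^ 2 * #S) := mul_le_mul_of_nonneg_right hl9 (by positivity)
          _ = (1 * (N : ℝ) ^ 2 * #S ^ 2) * 1 := by ring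
          _ ≤ (1 * N ^ 2 * #S ^ 2) * W ^ M1 := mul_le_mul_of_nonneg_left hWM (by positivity)
  have hb1 : ∑ t ∈ T1, (NT N (ev l t) : ℝ) ≤ C1 * ((l * 3) ^ 2 * (D * 2 ^ M1)) * N ^ 2 * #S ^ 2 * W ^ M1 / L ^ (l * 3) := by
    have hin : ∀ q ∈ Q, ∑ t ∈ T1, rat (Nat.dist (ev l t q.1) (ev l t q.2)) ^ M1 ≤ D * 2 ^ M1 * (N * #S ^ 2) * W ^ M1 := by
      intro q hq
      have hne := (mem_filter.1 hq).2
      have g := m' (ℕ × ℕ × ℕ) T1 (fun t => Nat.dist (ev l t q.1) (ev l t q.2)) (2 * (N * #S)) ?_ ?_ ?_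
      · refine g.trans ?_
        have e1 : (#T1 : ℝ) ≤ N * #S ^ 2 := by
          rw [← hcT]
          exact_mod_cast card_filter_le _ _
        calc D * #T1 * Real.log (Real.log (Real.log (((l + 1) * N : ℕ) : ℝ))) ^ M1 ≤ D * (N * #S ^ 2) * (2 * W) ^ M1 := by
              apply mul_le_mul (mul_le_mul_of_nonneg_left e1 hD.le) (pow_le_pow_left₀ hl3 hl4 _) (by positivity) (by positivity)
          _ = _ := by rw [mul_pow]; ring
      · intro t ht
        rw [hT1, mem_filter, hT, mem_product, mem_product, mem_Icc] at ht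
        obtain ⟨⟨ht1, ht2, ht3⟩, hinj⟩ := ht
        have hu : t.2.1 ≤ N := (mem_Icc.1 (hS ht2)).2
        have hu' : t.2.2 ≤ N := (mem_Icc.1 (hS ht3)).2
        have hev : ∀ q : Fin l × Fin 3, ev l t q ≤ (l + 1) * N := by
          intro q
          unfold ev
          have e1 : (q.1 : ℕ) * t.1 ≤ l * N := Nat.mul_le_mul q.1.2.le ht1.2
          have e2 : sh t q.2 ≤ N := by
            unfold sh
            obtain ⟨a, b⟩ := q
            fin_cases b
            · simp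
            · simpa using hu
            · simpa using hu'
          calc (q.1 : ℕ) * t.1 + sh t q.2 ≤ l * N + N := Nat.add_le_add e1 e2
            _ = (l + 1) * N := by ring
        have h3 : ev l t q.1 ≠ ev l t q.2 := fun h => hne (hinj h)
        have h4 := hev q.1
        have h5 := hev q.2
        constructor
        · simp only [Nat.dist]; omega
        · simp only [Nat.dist]; omega
      · intro v
        refine le_trans (card_le_card ?_) (fib l N S hS q.1 q.2 hne v)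
        intro t ht
        rw [mem_filter] at ht ⊢
        exact ⟨(mem_filter.1 ht.1).1, ht.2⟩
      · push_cast
        have e1 : (1 / 2 * (N * #S ^ 2)) * (L ^ A * (4 * ((l : ℝ) + 1))) ≤
            #T1 * Real.log (((l : ℝ) + 1) * N) ^ (A + 1) := by
          have e2 : L ^ A * (4 * ((l : ℝ) + 1)) ≤ Real.log (((l : ℝ) + 1) * N) ^ (A + 1) := by
            have e3 : L ≤ Real.log (((l : ℝ) + 1) * N) := by
              have := hl2
              push_cast at this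
              exact this
            rw [pow_succ]
            exact mul_le_mul (pow_le_pow_left₀ hL0.le e3 _) (hl1.trans e3) (by positivity) (pow_nonneg (hL0.le.trans e3) _)
          exact mul_le_mul (by linarith) e2 (by positivity) (Nat.cast_nonneg _)
        refine le_trans ?_ e1
        have e4 : 2 * (N * #S) * (((l : ℝ) + 1) * N) = (2 * ((l : ℝ) + 1) * N * #S) * N := by ring
        have e5 : (1 / 2 * (N * #S ^ 2)) * (L ^ A * (4 * ((l : ℝ) + 1))) = (2 * ((l : ℝ) + 1) * N * #S) * (#S * L ^ A) := by ring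
        rw [e4, e5]
        exact mul_le_mul_of_nonneg_left hSN (by positivity)
    calc ∑ t ∈ T1, (NT N (ev l t) : ℝ)
        ≤ ∑ t ∈ T1, C1 * N / L ^ (l * 3) * ∑ q ∈ Q, rat (Nat.dist (ev l t q.1) (ev l t q.2)) ^ M1 :=
          sum_le_sum fun t ht => h1 (ev l t) (mem_filter.1 ht).2
      _ = C1 * N / L ^ (l * 3) * ∑ q ∈ Q, ∑ t ∈ T1, rat (Nat.dist (ev l t q.1) (ev l t q.2)) ^ M1 := by
          rw [← mul_sum, sum_comm]
      _ ≤ C1 * N / L ^ (l * 3) * ∑ q ∈ Q, (D * 2 ^ M1 * (N * #S ^ 2) * W ^ M1) :=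
          mul_le_mul_of_nonneg_left (sum_le_sum hin) (by positivity)
      _ = C1 * N / L ^ (l * 3) * (#Q * (D * 2 ^ M1 * (N * #S ^ 2) * W ^ M1)) := by rw [sum_const, nsmul_eq_mul]
      _ ≤ C1 * N / L ^ (l * 3) * ((l * 3) ^ 2 * (D * 2 ^ M1 * (N * #S ^ 2) * W ^ M1)) := by
          apply mul_le_mul_of_nonneg_left _ (by positivity)
          exact mul_le_mul_of_nonneg_right hQc (by positivity)
      _ = _ := by ring
  rw [hs]
  calc _ ≤ C1 * ((l * 3) ^ 2 * (D * 2 ^ M1)) * N ^ 2 * #S ^ 2 * W ^ M1 / L ^ (l * 3) +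
        1 * N ^ 2 * #S ^ 2 * W ^ M1 / L ^ (l * 3) := add_le_add hb1 hb2
    _ = _ := by ring

/-- the number of the progressions of primes -/
theorem firstUp (l : ℕ) (hl : 2 ≤ l) : ∃ C : ℝ, 0 < C ∧ ∀ᶠ N : ℕ in atTop,
    ∑ y ∈ Icc 1 N, (NT N (fun j : Fin l => (j : ℕ) * y) : ℝ) ≤ C * N ^ 2 / Real.log N ^ l := by
  classical
  obtain ⟨C1, hC1, M1, hM1, h1⟩ := tbJ (Fin l) (by simpa using hl)
  obtain ⟨D, hD, m⟩ := momF M1 hM1
  have hl0 : (2 : ℝ) ≤ l := by exact_mod_cast hl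
  have hlog3 : 0 ≤ Real.log (3 : ℕ) := Real.log_natCast_nonneg 3
  have hDp : 0 < D := by linarith
  obtain ⟨E, hE, hE0⟩ : ∃ E : ℝ, D * Real.log (3 : ℕ) ≤ E ∧ 0 < E :=
    ⟨D * (Real.log (3 : ℕ) + 1), by nlinarith, mul_pos hDp (by linarith)⟩
  refine ⟨C1 * (l ^ 2 * (2 ^ M1 * (l * E ^ M1))), by positivity, ?_⟩
  filter_upwards [h1, eventually_ge_atTop 3] with N h1 hN3
  rw [Fintype.card_fin] at h1
  have hL0 : 0 < Real.log (N : ℝ) := by
    apply Real.log_pos
    exact_mod_cast (show 1 < N by omega)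
  set L := Real.log (N : ℝ) with hL
  set Q : Finset (Fin l × Fin l) := univ.filter (fun q => q.1 ≠ q.2) with hQ
  have hQc : (#Q : ℝ) ≤ l ^ 2 := by
    have : #Q ≤ l * l := by
      refine (card_filter_le _ _).trans (le_of_eq ?_)
      rw [card_univ, Fintype.card_prod, Fintype.card_fin]
    have h2 : (#Q : ℝ) ≤ (l * l : ℕ) := by exact_mod_cast this
    push_cast at h2
    nlinarith
  have hinj : ∀ y ∈ Icc 1 N, Function.Injective (fun j : Fin l => (j : ℕ) * y) := by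
    intro y hy j j' hjj
    simp only at hjj
    exact Fin.ext (Nat.eq_of_mul_eq_mul_right (mem_Icc.1 hy).1 hjj)
  have hin : ∀ q ∈ Q, ∑ y ∈ Icc 1 N, rat (Nat.dist ((q.1 : ℕ) * y) ((q.2 : ℕ) * y)) ^ M1 ≤
      2 ^ M1 * (l * E ^ M1) * N := by
    intro q hq
    have hne := (mem_filter.1 hq).2
    have hne' : (q.1 : ℕ) ≠ q.2 := fun h => hne (Fin.ext h)
    have g := m 3 (l * N) 1 ℕ (Icc 1 N) (fun y => Nat.dist ((q.1 : ℕ) * y) ((q.2 : ℕ) * y)) l le_rfl ?_ ?_
      (by positivity) ?_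
    · calc ∑ y ∈ Icc 1 N, rat (Nat.dist ((q.1 : ℕ) * y) ((q.2 : ℕ) * y)) ^ M1
          ≤ ∑ y ∈ Icc 1 N, 2 ^ M1 * gg (Nat.dist ((q.1 : ℕ) * y) ((q.2 : ℕ) * y)) ^ M1 := by
            apply sum_le_sum
            intro y hy
            rw [← mul_pow]
            apply pow_le_pow_left₀ (rat_nonneg' _)
            apply rat_le_gg
            have h3 : (q.1 : ℕ) * y ≠ (q.2 : ℕ) * y := fun h => hne (hinj y hy h)
            simp only [Nat.dist]; omega
        _ = 2 ^ M1 * ∑ y ∈ Icc 1 N, gg (Nat.dist ((q.1 : ℕ) * y) ((q.2 : ℕ) * y)) ^ M1 := by rw [mul_sum]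
        _ ≤ 2 ^ M1 * (l * (D * Real.log (3 : ℕ)) ^ M1 * #(Icc 1 N)) := mul_le_mul_of_nonneg_left g (by positivity)
        _ = 2 ^ M1 * (l * (D * Real.log (3 : ℕ)) ^ M1) * N := by
            rw [Nat.card_Icc, Nat.add_sub_cancel]; ring
        _ ≤ _ := by
            have hD0 : 0 ≤ D * Real.log (3 : ℕ) := mul_nonneg hDp.le hlog3
            gcongr
    · intro y hy
      have hy' := mem_Icc.1 hy
      have h3 : (q.1 : ℕ) * y ≠ (q.2 : ℕ) * y := fun h => hne (hinj y hy h)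
      have h4 : (q.1 : ℕ) * y ≤ l * N := Nat.mul_le_mul q.1.2.le hy'.2
      have h5 : (q.2 : ℕ) * y ≤ l * N := Nat.mul_le_mul q.2.2.le hy'.2
      constructor
      · simp only [Nat.dist]; omega
      · simp only [Nat.dist]; omega
    · intro v
      apply card_le_one.2
      intro y hy y' hy'
      rw [mem_filter] at hy hy'
      have e1 : Nat.dist ((q.1 : ℕ) * y) ((q.2 : ℕ) * y) = Nat.dist (q.1 : ℕ) q.2 * y := Nat.dist_mul_right _ _ _
      have e2 : Nat.dist ((q.1 : ℕ) * y') ((q.2 : ℕ) * y') = Nat.dist (q.1 : ℕ) q.2 * y' := Nat.dist_mul_right _ _ _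
      have e3 : Nat.dist (q.1 : ℕ) q.2 * y = Nat.dist (q.1 : ℕ) q.2 * y' := by
        rw [← e1, ← e2]
        exact hy.2.trans hy'.2.symm
      have e4 : 0 < Nat.dist (q.1 : ℕ) q.2 := by simp only [Nat.dist]; omega
      exact Nat.eq_of_mul_eq_mul_left e4 e3
    · rw [Nat.card_Icc, Nat.add_sub_cancel]
      push_cast
      have e1 : (l : ℝ) ≤ l ^ 3 := by nlinarith [sq_nonneg ((l : ℝ) - 1)]
      have e2 : (0 : ℝ) ≤ N := Nat.cast_nonneg _
      nlinarith
  calc ∑ y ∈ Icc 1 N, (NT N (fun j : Fin l => (j : ℕ) * y) : ℝ)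
      ≤ ∑ y ∈ Icc 1 N, C1 * N / L ^ l * ∑ q ∈ Q, rat (Nat.dist ((q.1 : ℕ) * y) ((q.2 : ℕ) * y)) ^ M1 :=
        sum_le_sum fun y hy => h1 _ (hinj y hy)
    _ = C1 * N / L ^ l * ∑ q ∈ Q, ∑ y ∈ Icc 1 N, rat (Nat.dist ((q.1 : ℕ) * y) ((q.2 : ℕ) * y)) ^ M1 := by
        rw [← mul_sum, sum_comm]
    _ ≤ C1 * N / L ^ l * ∑ q ∈ Q, (2 ^ M1 * (l * E ^ M1) * N) :=
        mul_le_mul_of_nonneg_left (sum_le_sum hin) (by positivity)
    _ = C1 * N / L ^ l * (#Q * (2 ^ M1 * (l * E ^ M1) * N)) := by rw [sum_const, nsmul_eq_mul]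
    _ ≤ C1 * N / L ^ l * (l ^ 2 * (2 ^ M1 * (l * E ^ M1) * N)) := by
        apply mul_le_mul_of_nonneg_left _ (by positivity)
        apply mul_le_mul_of_nonneg_right hQc
        positivity
    _ = _ := by ring

end Pool.Agent.Helper12.PG
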